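import Pool.Agent.H.MP_ccfaf0_pr.Tree

/-!
# The 3-neighbourhood of a vertex without short lassos is the regular tree of depth 3
-/

namespace Pool.Agent.H.MP_ccfaf0_pr

/-- Vertices of the regular tree of depth three. -/
inductive TV (d : ℕ) where
  | r : TV d
  | a (i : Fin d) : TV d
  | b (i : Fin d) (j : Fin (d - 1)) : TV d
  | c (i : Fin d) (j : Fin (d - 1)) (k : Fin (d - 1)) : TV d

/-- The regular tree of depth three. -/
def TG (d : ℕ) : SimpleGraph (TV d) where
  Adj s t := match s, t with
    | .r, .a _ => True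
    | .a _, .r => True
    | .a i, .b i' _ => i = i'
    | .b i' _, .a i => i = i'
    | .b i j, .c i' j' _ => i = i' ∧ j = j'
    | .c i' j' _, .b i j => i = i' ∧ j = j'
    | _, _ => False
  symm := ⟨by
    intro s t h
    cases s <;> cases t <;> simp_all⟩
  loopless := ⟨by
    intro s h
    cases s <;> simp_all⟩

variable {V : Type*} [Finite V] {d : ℕ} {G : SimpleGraph V}

/-- enumeration of a set of cardinality `m` -/
theorem exists_enum {s : Set V} {m : ℕ} (h : s.ncard = m) :
    ∃ f : Fin m → V, Function.Injective f ∧ Set.range f = s := by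
  have : Fintype s := Fintype.ofFinite s
  have hc : Fintype.card (Fin m) = Fintype.card s := by
    rw [Fintype.card_fin, ← h, ← Nat.card_coe_set_eq, Nat.card_eq_fintype_card]
  let e := Fintype.equivOfCardEq hc
  refine ⟨fun i => (e i : V), fun i j hij => e.injective (Subtype.ext hij), ?_⟩
  ext x
  constructor
  · rintro ⟨i, rfl⟩; exact (e i).2
  · intro hx; exact ⟨e.symm ⟨x, hx⟩, by simp⟩

theorem exists_child (hG : ∀ v, (G.neighborSet v).ncard = d) (p x : V) (h : G.Adj x p) :
    ∃ f : Fin (d - 1) → V, Function.Injective f ∧ Set.range f = G.neighborSet x \ {p} := by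
  apply exists_enum
  rw [Set.ncard_sdiff_singleton_of_mem (show p ∈ G.neighborSet x from h), hG]

theorem mem_ball_three (v w : V) : w ∈ ball G 3 v ↔
    w = v ∨ G.Adj v w ∨ (∃ x, G.Adj v x ∧ G.Adj x w) ∨
      (∃ x y, G.Adj v x ∧ G.Adj x y ∧ G.Adj y w) := by
  constructor
  · intro h
    have h' : G.edist v w ≤ 3 := h
    have hr : G.Reachable v w := by
      apply SimpleGraph.reachable_of_edist_ne_top
      intro e
      rw [e] at h'
      exact absurd h' (by decide)
    obtain ⟨p, hp⟩ := hr.exists_walk_length_eq_edist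
    rw [← hp] at h'
    have hl : p.length ≤ 3 := by exact_mod_cast h'
    clear hp h' h hr
    cases p with
    | nil => left; rfl
    | cons h1 p =>
      cases p with
      | nil => right; left; exact h1
      | cons h2 p =>
        cases p with
        | nil => right; right; left; exact ⟨_, h1, h2⟩
        | cons h3 p =>
          cases p with
          | nil => right; right; right; exact ⟨_, _, h1, h2, h3⟩
          | cons h4 p =>
            simp only [SimpleGraph.Walk.length_cons] at hl
            omega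
  · intro h
    change G.edist v w ≤ 3
    rcases h with rfl | h | ⟨x, h1, h2⟩ | ⟨x, y, h1, h2, h3⟩
    · simp
    · refine (SimpleGraph.edist_le (SimpleGraph.Walk.cons h SimpleGraph.Walk.nil)).trans ?_
      simp
    · refine (SimpleGraph.edist_le (SimpleGraph.Walk.cons h1
        (SimpleGraph.Walk.cons h2 SimpleGraph.Walk.nil))).trans ?_
      simp
      decide
    · refine (SimpleGraph.edist_le (SimpleGraph.Walk.cons h1
        (SimpleGraph.Walk.cons h2 (SimpleGraph.Walk.cons h3 SimpleGraph.Walk.nil)))).trans ?_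
      simp

/-- The embedding of the tree. -/
theorem exists_tree_map (hG : ∀ v, (G.neighborSet v).ncard = d) {v : V} (hv : ¬ Bad G v) :
    ∃ Φ : TV d → V, Function.Injective Φ ∧ Set.range Φ = ball G 3 v ∧ Φ .r = v ∧
      ∀ s t, G.Adj (Φ s) (Φ t) ↔ (TG d).Adj s t := by
  classical
  obtain ⟨α, hα, hαr⟩ := exists_enum (hG v)
  have hch : ∀ p x : V, ∃ f : Fin (d - 1) → V, G.Adj x p →
      (Function.Injective f ∧ Set.range f = G.neighborSet x \ {p}) := by
    intro p x
    by_cases h : G.Adj x p
    · obtain ⟨f, hf⟩ := exists_child hG p x h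
      exact ⟨f, fun _ => hf⟩
    · exact ⟨fun _ => v, fun h' => absurd h' h⟩
  choose ch hch using hch
  -- levels
  have A1 : ∀ i, G.Adj v (α i) := fun i => by
    have : α i ∈ G.neighborSet v := hαr ▸ Set.mem_range_self i
    exact this
  set y : Fin d → Fin (d - 1) → V := fun i j => ch v (α i) j with hy
  have B0 : ∀ i, Function.Injective (y i) ∧ Set.range (y i) = G.neighborSet (α i) \ {v} :=
    fun i => hch v (α i) (A1 i).symm
  have B1 : ∀ i j, G.Adj (α i) (y i j) ∧ y i j ≠ v := fun i j => by
    have : y i j ∈ G.neighborSet (α i) \ {v} := (B0 i).2 ▸ Set.mem_range_self j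
    exact this
  set z : Fin d → Fin (d - 1) → Fin (d - 1) → V := fun i j k => ch (α i) (y i j) k with hz
  have C0 : ∀ i j, Function.Injective (z i j) ∧
      Set.range (z i j) = G.neighborSet (y i j) \ {α i} :=
    fun i j => hch (α i) (y i j) (B1 i j).1.symm
  have C1 : ∀ i j k, P3 G v (α i) (y i j) (z i j k) := fun i j k => by
    have : z i j k ∈ G.neighborSet (y i j) \ {α i} := (C0 i j).2 ▸ Set.mem_range_self k
    exact ⟨A1 i, (B1 i j).1, (B1 i j).2, this.1, this.2⟩
  -- injectivity facts
  have hy_inj : ∀ i j i' j', y i j = y i' j' → i = i' ∧ j = j' := by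
    intro i j i' j' h
    have h1 : α i = α i' := F2 hv (A1 i) (B1 i j).1 (B1 i j).2 (A1 i') (h ▸ (B1 i' j').1)
    have h2 := hα h1
    subst h2
    exact ⟨rfl, (B0 i).1 h⟩
  have hz_inj : ∀ i j k i' j' k', z i j k = z i' j' k' → i = i' ∧ j = j' ∧ k = k' := by
    intro i j k i' j' k' h
    have h1 : y i j = y i' j' := F4 hv (C1 i j k) (h ▸ C1 i' j' k')
    obtain ⟨h2, h3⟩ := hy_inj _ _ _ _ h1
    subst h2; subst h3
    exact ⟨rfl, rfl, (C0 i j).1 h⟩
  let Φ : TV d → V := fun t => match t with
    | .r => v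
    | .a i => α i
    | .b i j => y i j
    | .c i j k => z i j k
  refine ⟨Φ, ?_, ?_, rfl, ?_⟩
  · intro s t hst
    cases s with
    | r =>
      cases t with
      | r => rfl
      | a i => exact absurd hst (A1 i).ne
      | b i j => exact absurd hst (B1 i j).2.symm
      | c i j k => exact absurd hst (F4v hv (C1 i j k)).symm
    | a i =>
      cases t with
      | r => exact absurd hst (A1 i).ne'
      | a i' => exact congrArg TV.a (hα hst)
      | b i' j' =>
        have h1 : α i = y i' j' := hst
        exact absurd (h1 ▸ A1 i) (F2' hv (A1 i') (B1 i' j').1)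
      | c i' j' k' =>
        have h1 : α i = z i' j' k' := hst
        exact absurd (h1 ▸ A1 i) (F4a hv (C1 i' j' k'))
    | b i j =>
      cases t with
      | r => exact absurd hst (B1 i j).2
      | a i' =>
        have h1 : y i j = α i' := hst
        exact absurd (h1 ▸ A1 i') (F2' hv (A1 i) (B1 i j).1)
      | b i' j' =>
        obtain ⟨h1, h2⟩ := hy_inj _ _ _ _ hst
        rw [h1, h2]
      | c i' j' k' =>
        have h1 : y i j = z i' j' k' := hst
        exact absurd (h1 ▸ (B1 i j).1) (F4b hv (C1 i' j' k') (A1 i))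
    | c i j k =>
      cases t with
      | r => exact absurd hst (F4v hv (C1 i j k))
      | a i' =>
        have h1 : z i j k = α i' := hst
        exact absurd (h1 ▸ A1 i') (F4a hv (C1 i j k))
      | b i' j' =>
        have h1 : z i j k = y i' j' := hst
        exact absurd (h1 ▸ (B1 i' j').1) (F4b hv (C1 i j k) (A1 i'))
      | c i' j' k' =>
        obtain ⟨h1, h2, h3⟩ := hz_inj _ _ _ _ _ _ hst
        rw [h1, h2, h3]
  · -- range
    have RA : ∀ x, G.Adj v x → ∃ i, α i = x := by
      intro x hx
      have : x ∈ Set.range α := by rw [hαr]; exact hx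
      exact this
    have RB : ∀ i w, G.Adj (α i) w → w ≠ v → ∃ j, y i j = w := by
      intro i w h1 h2
      have : w ∈ Set.range (y i) := by rw [(B0 i).2]; exact ⟨h1, h2⟩
      exact this
    have RC : ∀ i j w, G.Adj (y i j) w → w ≠ α i → ∃ k, z i j k = w := by
      intro i j w h1 h2
      have : w ∈ Set.range (z i j) := by rw [(C0 i j).2]; exact ⟨h1, h2⟩
      exact this
    ext w
    rw [mem_ball_three]
    constructor
    · rintro ⟨t, rfl⟩
      cases t with
      | r => left; rfl
      | a i => right; left; exact A1 i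
      | b i j => right; right; left; exact ⟨α i, A1 i, (B1 i j).1⟩
      | c i j k =>
        right; right; right; exact ⟨α i, y i j, A1 i, (B1 i j).1, (C1 i j k).yz⟩
    · rintro (rfl | h | ⟨x, h1, h2⟩ | ⟨x, y', h1, h2, h3⟩)
      · exact ⟨.r, rfl⟩
      · obtain ⟨i, hi⟩ := RA w h
        exact ⟨.a i, hi⟩
      · obtain ⟨i, rfl⟩ := RA x h1
        by_cases hw : w = v
        · exact ⟨.r, hw.symm⟩
        · obtain ⟨j, hj⟩ := RB i w h2 hw
          exact ⟨.b i j, hj⟩
      · obtain ⟨i, rfl⟩ := RA x h1
        by_cases hy' : y' = v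
        · subst hy'
          obtain ⟨i', hi'⟩ := RA w h3
          exact ⟨.a i', hi'⟩
        · obtain ⟨j, rfl⟩ := RB i y' h2 hy'
          by_cases hw : w = α i
          · exact ⟨.a i, hw.symm⟩
          · obtain ⟨k, hk⟩ := RC i j w h3 hw
            exact ⟨.c i j k, hk⟩
  · -- adjacency
    have hAB : ∀ i i' j', G.Adj (α i) (y i' j') ↔ i = i' := by
      intro i i' j'
      constructor
      · intro h
        exact hα (F2 hv (A1 i') (B1 i' j').1 (B1 i' j').2 (A1 i) h).symm
      · rintro rfl; exact (B1 i j').1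
    have hBC : ∀ i j i' j' k', G.Adj (y i j) (z i' j' k') ↔ i = i' ∧ j = j' := by
      intro i j i' j' k'
      constructor
      · intro h
        have hne : z i' j' k' ≠ α i := fun e => F4a hv (C1 i' j' k') (e ▸ A1 i)
        exact hy_inj _ _ _ _ (F4 hv ⟨A1 i, (B1 i j).1, (B1 i j).2, h, hne⟩ (C1 i' j' k'))
      · rintro ⟨rfl, rfl⟩; exact (C1 i j k').yz
    intro s t
    cases s with
    | r =>
      cases t with
      | r => simp [Φ, TG]
      | a i => simpa [Φ, TG] using A1 i
      | b i j => simpa [Φ, TG] using F2' hv (A1 i) (B1 i j).1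
      | c i j k => simpa [Φ, TG] using F4a hv (C1 i j k)
    | a i =>
      cases t with
      | r => simpa [Φ, TG] using (A1 i).symm
      | a i' => simpa [Φ, TG] using F1 hv (A1 i) (A1 i')
      | b i' j' => simpa [Φ, TG] using hAB i i' j'
      | c i' j' k' => simpa [Φ, TG] using F4b hv (C1 i' j' k') (A1 i)
    | b i j =>
      cases t with
      | r =>
        have := F2' hv (A1 i) (B1 i j).1
        simpa [Φ, TG] using fun h => this (G.adj_symm h)
      | a i' =>
        have := hAB i' i j
        rw [G.adj_comm] at this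
        simpa [Φ, TG] using this
      | b i' j' =>
        simpa [Φ, TG] using F3 hv (A1 i) (B1 i j).1 (B1 i j).2 (A1 i') (B1 i' j').1 (B1 i' j').2
      | c i' j' k' => simpa [Φ, TG] using hBC i j i' j' k'
    | c i j k =>
      cases t with
      | r =>
        have := F4a hv (C1 i j k)
        simpa [Φ, TG] using fun h => this (G.adj_symm h)
      | a i' =>
        have := F4b hv (C1 i j k) (A1 i')
        simpa [Φ, TG] using fun h => this (G.adj_symm h)
      | b i' j' =>
        have := hBC i' j' i j k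
        rw [G.adj_comm] at this
        simpa [Φ, TG] using this
      | c i' j' k' => simpa [Φ, TG] using F5 hv (C1 i j k) (C1 i' j' k')

/-- All vertices that are not bad, in all `d`-regular graphs, have the same 3-neighbourhood. -/
theorem good_sameNbhd {W : Type*} [Finite W] {H : SimpleGraph W}
    (hG : ∀ v, (G.neighborSet v).ncard = d) (hH : ∀ v, (H.neighborSet v).ncard = d)
    {v : V} (hv : ¬ Bad G v) {w : W} (hw : ¬ Bad H w) : SameNbhd 3 G v H w := by
  obtain ⟨Φ, hΦ, hΦr, hΦ0, hΦa⟩ := exists_tree_map hG hv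
  obtain ⟨Ψ, hΨ, hΨr, hΨ0, hΨa⟩ := exists_tree_map hH hw
  let e1 : TV d ≃ ball G 3 v := (Equiv.ofInjective Φ hΦ).trans (Equiv.setCongr hΦr)
  let e2 : TV d ≃ ball H 3 w := (Equiv.ofInjective Ψ hΨ).trans (Equiv.setCongr hΨr)
  have h1 : ∀ t, (e1 t : V) = Φ t := fun t => rfl
  have h2 : ∀ t, (e2 t : W) = Ψ t := fun t => rfl
  refine ⟨⟨e1.symm.trans e2, ?_⟩, ?_⟩
  · intro a b
    obtain ⟨s, rfl⟩ := e1.surjective a
    obtain ⟨t, rfl⟩ := e1.surjective b
    simp only [Equiv.trans_apply, Equiv.symm_apply_apply, SimpleGraph.comap_adj,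
      Function.Embedding.subtype_apply, h1, h2, hΨa, hΦa]
  · have h3 : e1 .r = ⟨v, mem_ball_self G 3 v⟩ := Subtype.ext hΦ0
    have h4 : e2 .r = ⟨w, mem_ball_self H 3 w⟩ := Subtype.ext hΨ0
    change e2 (e1.symm _) = _
    rw [← h3, Equiv.symm_apply_apply, h4]

end Pool.Agent.H.MP_ccfaf0_pr
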