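import Pool.Agent.H.MP_ccfaf0_pr.Lasso
import Pool.Agent.H.MP_ccfaf0_pr.TreeIso

/-!
# Counting reconstructable regular graphs with few bad vertices
-/

open Finset

namespace Pool.Agent.H.MP_ccfaf0_pr

open scoped Classical

/-- Codes for rooted graphs with at most `K` vertices. -/
abbrev CodeT (K : ℕ) : Type := Set (Fin K) × SimpleGraph (Fin K) × Fin K

theorem card_codeT (K : ℕ) : Fintype.card (CodeT K) ≤ 2 ^ (K * K + 2 * K) := by
  have h1 : Fintype.card (SimpleGraph (Fin K)) ≤ 2 ^ (K * K) := by
    have hinj : Function.Injective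
        (fun (G : SimpleGraph (Fin K)) => {p : Fin K × Fin K | G.Adj p.1 p.2}) := by
      intro G H h
      ext a b
      have h' : (a, b) ∈ {p : Fin K × Fin K | G.Adj p.1 p.2} ↔
          (a, b) ∈ {p : Fin K × Fin K | H.Adj p.1 p.2} := by
        have h0 : {p : Fin K × Fin K | G.Adj p.1 p.2} = {p : Fin K × Fin K | H.Adj p.1 p.2} := h
        rw [h0]
      exact h'
    have := Fintype.card_le_of_injective _ hinj
    rwa [Fintype.card_set, Fintype.card_prod, Fintype.card_fin] at this
  have h2 : K ≤ 2 ^ K := Nat.lt_two_pow_self.le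
  rw [Fintype.card_prod, Fintype.card_prod, Fintype.card_set, Fintype.card_fin]
  calc 2 ^ K * (Fintype.card (SimpleGraph (Fin K)) * K) ≤ 2 ^ K * (2 ^ (K * K) * 2 ^ K) :=
        Nat.mul_le_mul_left _ (Nat.mul_le_mul h1 h2)
    _ = 2 ^ (K * K + 2 * K) := by
        rw [← pow_add, ← pow_add]
        congr 1
        ring

/-- The code of a graph through an embedding. -/
def codeOf {A : Type*} {K : ℕ} (X : SimpleGraph A) (ι : A ↪ Fin K) (a : A) : CodeT K :=
  (Set.range ι, X.map ι, ι a)

theorem iso_of_code {A B : Type*} {K : ℕ} {X : SimpleGraph A} {Y : SimpleGraph B}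
    {ι : A ↪ Fin K} {κ : B ↪ Fin K} {a : A} {b : B}
    (h : codeOf X ι a = codeOf Y κ b) : ∃ e : X ≃g Y, e a = b := by
  simp only [codeOf, Prod.mk.injEq] at h
  obtain ⟨h1, h2, h3⟩ := h
  let e : A ≃ B := (Equiv.ofInjective ι ι.injective).trans
    ((Equiv.setCongr h1).trans (Equiv.ofInjective κ κ.injective).symm)
  have he : ∀ x, κ (e x) = ι x := by
    intro x
    have : (Equiv.ofInjective κ κ.injective (e x) : Fin K) = ι x := by
      simp [e]
    simpa using this
  refine ⟨⟨e, ?_⟩, ?_⟩
  · intro x y
    rw [← SimpleGraph.map_adj_apply (G := Y) (f := κ), he, he, ← h2,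
      SimpleGraph.map_adj_apply]
  · apply κ.injective
    change κ (e a) = κ b
    rw [he, h3]

theorem card_ball_le {n d : ℕ} {G : SimpleGraph (Fin n)} (hG : G ∈ regG (Fin n) d)
    (v : Fin n) : Fintype.card (ball G 3 v) ≤ 1 + d + d * d + d * (d * d) := by
  have hc : Fintype.card (ball G 3 v) = (univ.filter fun w => w ∈ ball G 3 v).card := by
    rw [Fintype.card_subtype]
  rw [hc]
  have hsub : (univ.filter fun w => w ∈ ball G 3 v) ⊆
      ({v} ∪ (univ.filter fun w => G.Adj v w) ∪
      ((univ.filter fun x => G.Adj v x).biUnion fun x => univ.filter fun w => G.Adj x w)) ∪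
      ((univ.filter fun x => G.Adj v x).biUnion fun x =>
        (univ.filter fun y => G.Adj x y).biUnion fun y => univ.filter fun w => G.Adj y w) := by
    intro w hw
    simp only [mem_filter, mem_univ, true_and, mem_ball_three] at hw
    simp only [mem_union, mem_singleton, mem_filter, mem_univ, true_and, mem_biUnion]
    rcases hw with h | h | ⟨x, h1, h2⟩ | ⟨x, y, h1, h2, h3⟩
    · left; left; left; exact h
    · left; left; right; exact h
    · left; right; exact ⟨x, h1, h2⟩
    · right; exact ⟨x, h1, y, h2, h3⟩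
  have e1 : ((univ.filter fun x => G.Adj v x).biUnion
      fun x => univ.filter fun w => G.Adj x w).card ≤ d * d := by
    refine card_biUnion_le.trans ?_
    calc _ ≤ ∑ _x ∈ univ.filter (fun x => G.Adj v x), d :=
          Finset.sum_le_sum fun x _ => (card_nbr hG x).le
      _ = d * d := by rw [Finset.sum_const, card_nbr hG v, smul_eq_mul]
  have e2 : ((univ.filter fun x => G.Adj v x).biUnion fun x =>
      (univ.filter fun y => G.Adj x y).biUnion fun y => univ.filter fun w => G.Adj y w).card
      ≤ d * (d * d) := by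
    refine card_biUnion_le.trans ?_
    calc _ ≤ ∑ _x ∈ univ.filter (fun x => G.Adj v x), d * d := by
          refine Finset.sum_le_sum fun x _ => card_biUnion_le.trans ?_
          calc _ ≤ ∑ _y ∈ univ.filter (fun y => G.Adj x y), d :=
                Finset.sum_le_sum fun y _ => (card_nbr hG y).le
            _ = d * d := by rw [Finset.sum_const, card_nbr hG x, smul_eq_mul]
      _ = d * (d * d) := by rw [Finset.sum_const, card_nbr hG v, smul_eq_mul]
  refine (card_le_card hsub).trans ((card_union_le _ _).trans (add_le_add ?_ e2))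
  refine (card_union_le _ _).trans (add_le_add ?_ e1)
  refine (card_union_le _ _).trans (add_le_add (by simp) (card_nbr hG v).le)

/-- a permutation moving a small set into an initial segment -/
theorem exists_perm {n m : ℕ} (hm : m ≤ n) (B : Finset (Fin n)) (hB : B.card ≤ m) :
    ∃ σ : Equiv.Perm (Fin n), ∀ v ∈ B, (σ v).1 < m := by
  set I : Finset (Fin n) := univ.filter fun i => i.1 < m with hI
  have hIc : I.card = m := by
    have : I = (Finset.range m).attachFin (fun i hi => by
        rw [mem_range] at hi; omega) := by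
      ext i; simp [hI]
    rw [this, card_attachFin, card_range]
  obtain ⟨J, hJ, hJc⟩ := exists_subset_card_eq (hIc ▸ hB : B.card ≤ I.card)
  let e : {x // x ∈ B} ≃ {x // x ∈ J} := Finset.equivOfCardEq hJc.symm
  refine ⟨e.extendSubtype, fun v hv => ?_⟩
  have := e.extendSubtype_mem v hv
  have h2 := hJ this
  rw [hI, mem_filter] at h2
  exact h2.2

theorem card_reconstructable_le {n d m K : ℕ} (hm : m ≤ n)
    (hK : 1 + d + d * d + d * (d * d) ≤ K) :
    ((regG (Fin n) d).filter fun G => Reconstructable 3 G ∧ badCount G ≤ m).card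
      ≤ n.factorial * (2 ^ (K * K + 2 * K)) ^ m := by
  -- embeddings of balls
  have hemb : ∀ (G : SimpleGraph (Fin n)) (v : Fin n), G ∈ regG (Fin n) d →
      Nonempty (ball G 3 v ↪ Fin K) := by
    intro G v hG
    apply Function.Embedding.nonempty_of_card_le
    rw [Fintype.card_fin]
    exact (card_ball_le hG v).trans hK
  have hKpos : 0 < K := by omega
  let dflt : CodeT K := (∅, ⊥, ⟨0, hKpos⟩)
  let code : SimpleGraph (Fin n) → Fin n → CodeT K := fun G v =>
    if h : G ∈ regG (Fin n) d then
      codeOf (G.induce (ball G 3 v)) (Classical.choice (hemb G v h)) ⟨v, mem_ball_self G 3 v⟩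
    else dflt
  have hcode : ∀ G H v w, G ∈ regG (Fin n) d → H ∈ regG (Fin n) d → code G v = code H w →
      SameNbhd 3 G v H w := by
    intro G H v w hG hH h
    simp only [code, dif_pos hG, dif_pos hH] at h
    exact iso_of_code h
  -- permutations
  have hperm : ∀ G : SimpleGraph (Fin n), ∃ σ : Equiv.Perm (Fin n),
      badCount G ≤ m → ∀ v, Bad G v → (σ v).1 < m := by
    intro G
    by_cases h : badCount G ≤ m
    · obtain ⟨σ, hσ⟩ := exists_perm hm _ h
      exact ⟨σ, fun _ v hv => hσ v (mem_filter.2 ⟨mem_univ _, hv⟩)⟩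
    · exact ⟨1, fun h' => absurd h' h⟩
  choose σ hσ using hperm
  let f : SimpleGraph (Fin n) → (Fin m → CodeT K) := fun G i =>
    code G ((σ G).symm ⟨i.1, by omega⟩)
  set R := (regG (Fin n) d).filter fun G => Reconstructable 3 G ∧ badCount G ≤ m with hR
  have hiso : ∀ G ∈ R, ∀ H ∈ R, f G = f H → Nonempty (G ≃g H) := by
    intro G hG H hH hf
    rw [hR, mem_filter] at hG hH
    obtain ⟨hG1, hG2, hG3⟩ := hG
    obtain ⟨hH1, hH2, hH3⟩ := hH
    apply hG2
    refine ⟨(σ G).trans (σ H).symm, fun v => ?_⟩
    by_cases hv : (σ G v).1 < m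
    · apply hcode _ _ _ _ hG1 hH1
      have h1 := congrFun hf ⟨(σ G v).1, hv⟩
      simp only [f] at h1
      simpa using h1
    · refine good_sameNbhd (mem_regG.1 hG1) (mem_regG.1 hH1) ?_ ?_
      · intro hb
        exact hv (hσ G hG3 v hb)
      · intro hb
        have := hσ H hH3 _ hb
        simp at this
        exact hv this
  have h1 : R.card ≤ n.factorial * (R.image f).card := by
    refine Finset.card_le_mul_card_image R _ fun b hb => ?_
    rw [mem_image] at hb
    obtain ⟨G, hG, rfl⟩ := hb
    have hsub : (R.filter fun H => f H = f G) ⊆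
        (univ : Finset (Equiv.Perm (Fin n))).image fun π : Equiv.Perm (Fin n) => G.comap π := by
      intro H hH
      rw [mem_filter] at hH
      obtain ⟨e⟩ := hiso G hG H hH.1 hH.2.symm
      rw [mem_image]
      refine ⟨e.symm.toEquiv, mem_univ _, ?_⟩
      ext a b
      exact e.symm.map_adj_iff
    refine (card_le_card hsub).trans (card_image_le.trans ?_)
    rw [card_univ, Fintype.card_perm, Fintype.card_fin]
  refine h1.trans (Nat.mul_le_mul_left _ ?_)
  refine (card_le_univ _).trans ?_
  rw [Fintype.card_fun, Fintype.card_fin]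
  exact Nat.pow_le_pow_left (card_codeT K) m

end Pool.Agent.H.MP_ccfaf0_pr
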