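import Pool.Agent.H.MP_ccfaf0_pr.Switch

/-!
# Counting regular graphs containing a given set of edges
-/

open Finset

namespace Pool.Agent.H.MP_ccfaf0_pr

open scoped Classical

variable {V : Type*} [Fintype V]

/-- Number of `d`-regular graphs containing all the edges in `F`. -/
noncomputable def cnt (V : Type*) [Fintype V] (d : ℕ) (F : Finset (Sym2 V)) : ℕ :=
  ((regG V d).filter fun G => ∀ e ∈ F, e ∈ G.edgeSet).card

theorem mem_regG {d : ℕ} {G : SimpleGraph V} :
    G ∈ regG V d ↔ ∀ v, (G.neighborSet v).ncard = d := by
  simp [regG]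

theorem card_nbr {d : ℕ} {G : SimpleGraph V} (hG : G ∈ regG V d) (x : V) :
    (univ.filter fun y => G.Adj x y).card = d := by
  rw [← mem_regG.1 hG x, Set.ncard_eq_toFinset_card']
  congr 1
  ext y
  simp

theorem card_nbr' {d : ℕ} {G : SimpleGraph V} (hG : G ∈ regG V d) (x : V) :
    (univ.filter fun y => G.Adj y x).card = d := by
  rw [← card_nbr hG x]
  congr 1
  ext y
  simp [G.adj_comm]

theorem card_darts {d : ℕ} {G : SimpleGraph V} (hG : G ∈ regG V d) :
    (univ.filter fun p : V × V => G.Adj p.1 p.2).card = Fintype.card V * d := by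
  have h1 : (univ.filter fun p : V × V => G.Adj p.1 p.2).card
      = ∑ x : V, (univ.filter fun y => G.Adj x y).card := by
    rw [Finset.card_filter, Fintype.sum_prod_type]
    refine Finset.sum_congr rfl fun x _ => ?_
    rw [Finset.card_filter]
  rw [h1, Finset.sum_congr rfl fun x _ => card_nbr hG x]
  simp

theorem card_sym2_le (F : Finset (Sym2 V)) :
    (univ.filter fun p : V × V => s(p.1, p.2) ∈ F).card ≤ 2 * F.card := by
  have h1 : (univ.filter fun p : V × V => s(p.1, p.2) ∈ F)
      ⊆ F.biUnion fun e => (univ.filter fun p : V × V => s(p.1, p.2) = e) := by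
    intro p hp
    simp only [mem_filter, mem_univ, true_and] at hp
    simp only [mem_biUnion, mem_filter, mem_univ, true_and]
    exact ⟨_, hp, rfl⟩
  refine (card_le_card h1).trans (card_biUnion_le.trans ?_)
  rw [mul_comm, ← smul_eq_mul, ← Finset.sum_const]
  refine Finset.sum_le_sum fun e _ => ?_
  induction e with
  | h a b =>
    have : (univ.filter fun p : V × V => s(p.1, p.2) = s(a, b)) ⊆ {(a, b), (b, a)} := by
      intro p hp
      simp only [mem_filter, mem_univ, true_and, Sym2.eq_iff] at hp
      simp only [mem_insert, mem_singleton, Prod.ext_iff]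
      exact hp
    exact (card_le_card this).trans card_le_two

/-- Lower bound for the number of switchings available. -/
theorem card_valid {d : ℕ} (h16 : 16 * d ≤ Fintype.card V)
    {G : SimpleGraph V} (hG : G ∈ regG V d) (F : Finset (Sym2 V))
    (hF : 8 * F.card ≤ Fintype.card V * d) {u v : V} (huv : G.Adj u v) :
    Fintype.card V * d ≤ 2 *
      (univ.filter fun p : V × V => Valid G u v p.1 p.2 ∧ s(p.1, p.2) ∉ F).card := by
  set n := Fintype.card V
  have hsub : (univ.filter fun p : V × V => G.Adj p.1 p.2) ⊆
      (univ.filter fun p : V × V => Valid G u v p.1 p.2 ∧ s(p.1, p.2) ∉ F) ∪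
      ((univ.filter fun p : V × V => s(p.1, p.2) ∈ F) ∪
      (((univ.filter fun y => G.Adj u y).image fun y => (u, y)) ∪
      (((univ.filter fun x => G.Adj x v).image fun x => (x, v)) ∪
      (((univ.filter fun x => G.Adj u x).biUnion
          fun x => (univ.filter fun y => G.Adj x y).image fun y => (x, y)) ∪
      ((univ.filter fun y => G.Adj v y).biUnion
          fun y => (univ.filter fun x => G.Adj x y).image fun x => (x, y)))))) := by
    rintro ⟨x, y⟩ hp
    simp only [mem_filter, mem_univ, true_and] at hp
    simp only [mem_union, mem_filter, mem_univ, true_and, mem_image, mem_biUnion, Prod.mk.injEq]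
    by_cases h1 : s(x, y) ∈ F
    · right; left; exact h1
    by_cases h2 : x = u
    · subst h2; right; right; left; exact ⟨y, hp, rfl, rfl⟩
    by_cases h3 : y = v
    · subst h3; right; right; right; left; exact ⟨x, hp, rfl, rfl⟩
    by_cases h4 : G.Adj u x
    · right; right; right; right; left; exact ⟨x, h4, y, hp, rfl, rfl⟩
    by_cases h5 : G.Adj v y
    · right; right; right; right; right; exact ⟨y, h5, x, hp, rfl, rfl⟩
    · left; exact ⟨⟨huv, hp, h2, h3, h4, h5⟩, h1⟩
  have hcard := card_le_card hsub
  rw [card_darts hG] at hcard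
  change n * d ≤ _ at hcard
  have e1 := card_sym2_le F
  have e2 : ((univ.filter fun y => G.Adj u y).image fun y => (u, y)).card ≤ d :=
    card_image_le.trans (card_nbr hG u).le
  have e3 : ((univ.filter fun x => G.Adj x v).image fun x => (x, v)).card ≤ d :=
    card_image_le.trans (card_nbr' hG v).le
  have e4 : ((univ.filter fun x => G.Adj u x).biUnion
      fun x => (univ.filter fun y => G.Adj x y).image fun y => (x, y)).card ≤ d * d := by
    refine card_biUnion_le.trans ?_
    calc _ ≤ ∑ _x ∈ univ.filter (fun x => G.Adj u x), d :=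
          Finset.sum_le_sum fun x _ => card_image_le.trans (card_nbr hG x).le
      _ = d * d := by rw [Finset.sum_const, card_nbr hG u, smul_eq_mul]
  have e5 : ((univ.filter fun y => G.Adj v y).biUnion
      fun y => (univ.filter fun x => G.Adj x y).image fun x => (x, y)).card ≤ d * d := by
    refine card_biUnion_le.trans ?_
    calc _ ≤ ∑ _x ∈ univ.filter (fun x => G.Adj v x), d :=
          Finset.sum_le_sum fun x _ => card_image_le.trans (card_nbr' hG x).le
      _ = d * d := by rw [Finset.sum_const, card_nbr hG v, smul_eq_mul]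
  have hu := hcard.trans (card_union_le _ _)
  have hu2 := card_union_le (univ.filter fun p : V × V => s(p.1, p.2) ∈ F)
    (((univ.filter fun y => G.Adj u y).image fun y => (u, y)) ∪
      (((univ.filter fun x => G.Adj x v).image fun x => (x, v)) ∪
      (((univ.filter fun x => G.Adj u x).biUnion
          fun x => (univ.filter fun y => G.Adj x y).image fun y => (x, y)) ∪
      ((univ.filter fun y => G.Adj v y).biUnion
          fun y => (univ.filter fun x => G.Adj x y).image fun x => (x, y)))))
  have hu3 := card_union_le ((univ.filter fun y => G.Adj u y).image fun y => (u, y))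
      (((univ.filter fun x => G.Adj x v).image fun x => (x, v)) ∪
      (((univ.filter fun x => G.Adj u x).biUnion
          fun x => (univ.filter fun y => G.Adj x y).image fun y => (x, y)) ∪
      ((univ.filter fun y => G.Adj v y).biUnion
          fun y => (univ.filter fun x => G.Adj x y).image fun x => (x, y))))
  have hu4 := card_union_le ((univ.filter fun x => G.Adj x v).image fun x => (x, v))
      (((univ.filter fun x => G.Adj u x).biUnion
          fun x => (univ.filter fun y => G.Adj x y).image fun y => (x, y)) ∪
      ((univ.filter fun y => G.Adj v y).biUnion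
          fun y => (univ.filter fun x => G.Adj x y).image fun x => (x, y)))
  have hu5 := card_union_le ((univ.filter fun x => G.Adj u x).biUnion
          fun x => (univ.filter fun y => G.Adj x y).image fun y => (x, y))
      ((univ.filter fun y => G.Adj v y).biUnion
          fun y => (univ.filter fun x => G.Adj x y).image fun x => (x, y))
  have hd : 16 * (d * d) ≤ n * d := by nlinarith
  have hd2 : d ≤ d * d ∨ d = 0 := by
    rcases Nat.eq_zero_or_pos d with h | h
    · right; exact h
    · left; nlinarith
  rcases hd2 with hd2 | hd2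
  · omega
  · subst hd2; simp

theorem cnt_insert_le {d : ℕ} (h16 : 16 * d ≤ Fintype.card V)
    (F : Finset (Sym2 V)) (hF : 8 * F.card ≤ Fintype.card V * d) (e : Sym2 V) (he : e ∉ F) :
    cnt V d (insert e F) * (Fintype.card V * d) ≤ 2 * (d * d) * cnt V d F := by
  induction e with
  | h u v =>
  set n := Fintype.card V
  set A := (regG V d).filter fun G => ∀ e ∈ insert s(u, v) F, e ∈ G.edgeSet with hA
  set B := (regG V d).filter fun G => ∀ e ∈ F, e ∈ G.edgeSet with hB
  -- pairs
  set X : Finset (SimpleGraph V × (V × V)) := A.biUnion fun G =>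
    (univ.filter fun p : V × V => Valid G u v p.1 p.2 ∧ s(p.1, p.2) ∉ F).image fun p => (G, p)
    with hX
  set Y : Finset (SimpleGraph V × (V × V)) := B.biUnion fun G =>
    ((univ.filter fun x => G.Adj u x) ×ˢ (univ.filter fun y => G.Adj v y)).image fun p => (G, p)
    with hY
  have hXc : A.card * (n * d) ≤ 2 * X.card := by
    rw [hX, card_biUnion]
    · rw [Finset.mul_sum, ← smul_eq_mul, ← Finset.sum_const]
      refine Finset.sum_le_sum fun G hG => ?_
      rw [card_image_of_injective _ (fun a b h => (Prod.mk.inj h).2)]
      rw [hA, mem_filter] at hG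
      refine card_valid h16 hG.1 F hF ?_
      exact hG.2 _ (mem_insert_self _ _)
    · intro G _ G' _ hne
      rw [Function.onFun, disjoint_left]
      intro p hp hp'
      rw [mem_image] at hp hp'
      obtain ⟨q, -, rfl⟩ := hp
      obtain ⟨q', -, h⟩ := hp'
      exact hne (Prod.mk.inj h).1.symm
  have hYc : Y.card ≤ B.card * (d * d) := by
    refine card_biUnion_le.trans ?_
    rw [← smul_eq_mul, ← Finset.sum_const]
    refine Finset.sum_le_sum fun G hG => card_image_le.trans ?_
    rw [hB, mem_filter] at hG
    rw [card_product, card_nbr hG.1, card_nbr hG.1]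
  have hXY : X.card ≤ Y.card := by
    refine card_le_card_of_injOn (fun q => (sw q.1 u v q.2.1 q.2.2, q.2)) ?_ ?_
    · intro q hq
      simp only [hX, mem_coe, mem_biUnion, mem_image, mem_filter, mem_univ, true_and] at hq
      obtain ⟨G, hG, p, ⟨hv, hpF⟩, rfl⟩ := hq
      rw [hA, mem_filter] at hG
      simp only [hY, mem_coe, mem_biUnion, mem_image]
      refine ⟨sw G u v p.1 p.2, ?_, p, ?_, rfl⟩
      · rw [hB, mem_filter]
        refine ⟨?_, ?_⟩
        · rw [mem_regG]
          intro w
          rw [sw_regular hv, mem_regG.1 hG.1 w]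
        · intro e heF
          have hne1 : e ≠ s(u, v) := fun h => he (h ▸ heF)
          have hne2 : e ≠ s(p.1, p.2) := fun h => hpF (h ▸ heF)
          have hmem := hG.2 e (mem_insert_of_mem heF)
          induction e with
          | h a b =>
            rw [SimpleGraph.mem_edgeSet, sw_adj]
            exact Or.inl ⟨hmem, hne1, hne2⟩
      · simp only [mem_product, mem_filter, mem_univ, true_and, sw_adj]
        exact ⟨Or.inr ⟨Or.inl trivial, hv.xu.symm⟩, Or.inr ⟨Or.inr trivial, hv.yv.symm⟩⟩
    · intro q hq q' hq' h
      simp only [hX, mem_coe, mem_biUnion, mem_image, mem_filter, mem_univ, true_and] at hq hq'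
      obtain ⟨G, hG, p, ⟨hv, hpF⟩, rfl⟩ := hq
      obtain ⟨G', hG', p', ⟨hv', hpF'⟩, rfl⟩ := hq'
      simp only [Prod.mk.injEq] at h
      obtain ⟨h1, h2⟩ := h
      subst h2
      have := sw_sw hv
      rw [h1, sw_sw hv'] at this
      rw [this]
  have hfin : A.card * (n * d) ≤ 2 * (B.card * (d * d)) :=
    hXc.trans (Nat.mul_le_mul_left 2 (hXY.trans hYc))
  calc cnt V d (insert s(u, v) F) * (n * d) = A.card * (n * d) := rfl
    _ ≤ 2 * (B.card * (d * d)) := hfin
    _ = 2 * (d * d) * cnt V d F := by
        have : cnt V d F = B.card := rfl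
        rw [this]; ring

/-- `P(F ⊆ G) ≤ (2d/n)^|F|`. -/
theorem cnt_le {d : ℕ} (hd : 0 < d) (h16 : 16 * d ≤ Fintype.card V)
    (F : Finset (Sym2 V)) (hF : 8 * F.card ≤ Fintype.card V * d) :
    cnt V d F * (Fintype.card V) ^ F.card ≤ (2 * d) ^ F.card * (regG V d).card := by
  induction F using Finset.induction_on with
  | empty => simp [cnt]
  | insert e F he ih =>
    rw [card_insert_of_notMem he] at hF ⊢
    have ih' := ih (by omega)
    have h1 := cnt_insert_le h16 F (by omega) e he
    have h2 : cnt V d (insert e F) * Fintype.card V ≤ 2 * d * cnt V d F := by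
      have : (cnt V d (insert e F) * Fintype.card V) * d ≤ (2 * d * cnt V d F) * d := by
        calc _ = cnt V d (insert e F) * (Fintype.card V * d) := by ring
          _ ≤ 2 * (d * d) * cnt V d F := h1
          _ = _ := by ring
      exact Nat.le_of_mul_le_mul_right this hd
    calc cnt V d (insert e F) * Fintype.card V ^ (F.card + 1)
        = (cnt V d (insert e F) * Fintype.card V) * Fintype.card V ^ F.card := by ring
      _ ≤ (2 * d * cnt V d F) * Fintype.card V ^ F.card := Nat.mul_le_mul_right _ h2
      _ = 2 * d * (cnt V d F * Fintype.card V ^ F.card) := by ring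
      _ ≤ 2 * d * ((2 * d) ^ F.card * (regG V d).card) := Nat.mul_le_mul_left _ ih'
      _ = _ := by ring

/-- Lower bound for the number of regular graphs, given that there is one. -/
theorem card_regG_ge {d : ℕ} (hd : 0 < d) (h16 : 16 * d ≤ Fintype.card V)
    (hne : (regG V d).Nonempty) (k : ℕ) (hk : 8 * k ≤ Fintype.card V * d) :
    (Fintype.card V) ^ k ≤ (2 * d) ^ k * (regG V d).card := by
  obtain ⟨G, hG⟩ := hne
  -- the edge set has at least k elements
  have hE : k ≤ (univ.filter fun e : Sym2 V => e ∈ G.edgeSet).card := by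
    have h1 : (univ.filter fun p : V × V => G.Adj p.1 p.2).card
        ≤ 2 * (univ.filter fun e : Sym2 V => e ∈ G.edgeSet).card := by
      refine le_trans (card_le_card ?_) (card_sym2_le _)
      intro p hp
      simpa using hp
    rw [card_darts hG] at h1
    omega
  obtain ⟨F, hF, hFc⟩ := exists_subset_card_eq hE
  have h1 := cnt_le hd h16 F (by rw [hFc]; exact hk)
  have h2 : 1 ≤ cnt V d F := by
    rw [cnt, Nat.one_le_iff_ne_zero, Finset.card_ne_zero]
    refine ⟨G, ?_⟩
    rw [mem_filter]
    refine ⟨hG, fun e he => ?_⟩
    have := hF he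
    simpa using this
  rw [hFc] at h1
  calc (Fintype.card V) ^ k = 1 * (Fintype.card V) ^ k := (one_mul _).symm
    _ ≤ cnt V d F * (Fintype.card V) ^ k := Nat.mul_le_mul_right _ h2
    _ ≤ _ := h1

end Pool.Agent.H.MP_ccfaf0_pr
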