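import Mathlib

/-!
# Reconstruction of graphs from their `r`-neighbourhoods: definitions
-/

namespace Pool.Agent.H.MP_ccfaf0_pr

/-- The vertices at graph distance at most `r` from `v`. -/
def ball {V : Type*} (G : SimpleGraph V) (r : ℕ) (v : V) : Set V := {w | G.edist v w ≤ r}

theorem mem_ball_self {V : Type*} (G : SimpleGraph V) (r : ℕ) (v : V) : v ∈ ball G r v := by
  simp [ball]

/-- The `r`-neighbourhood of `v` in `G` (the subgraph of `G` induced on the vertices at distance at
most `r` from `v`, rooted at `v`) is isomorphic to the `r`-neighbourhood of `w` in `H`, by a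
root-preserving isomorphism. -/
def SameNbhd {V W : Type*} (r : ℕ) (G : SimpleGraph V) (v : V) (H : SimpleGraph W) (w : W) :
    Prop :=
  ∃ e : G.induce (ball G r v) ≃g H.induce (ball H r w),
    e ⟨v, mem_ball_self G r v⟩ = ⟨w, mem_ball_self H r w⟩

/-- `G` is reconstructable from its `r`-neighbourhoods: every graph `H` with the same collection
(multiset) of rooted unlabelled `r`-neighbourhoods is isomorphic to `G`. -/
def Reconstructable {V : Type} (r : ℕ) (G : SimpleGraph V) : Prop :=
  ∀ (W : Type) (H : SimpleGraph W),
    (∃ φ : V ≃ W, ∀ v, SameNbhd r G v H (φ v)) → Nonempty (G ≃g H)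

/-- The set of all `d`-regular graphs with vertex set `Fin n`. -/
def regularGraphs (n d : ℕ) : Set (SimpleGraph (Fin n)) :=
  {G | ∀ v, (G.neighborSet v).ncard = d}

/-- The probability that a uniformly random `d`-regular graph on `n` labelled vertices is not
reconstructable from its `r`-neighbourhoods. -/
noncomputable def probNotReconstructable (r n d : ℕ) : ℝ :=
  ({G ∈ regularGraphs n d | ¬ Reconstructable r G}.ncard : ℝ) / ((regularGraphs n d).ncard : ℝ)

end Pool.Agent.H.MP_ccfaf0_pr
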