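import Pool.Agent.H.MP_ccfaf0_pr.Count

/-!
# Existence of regular graphs
-/

open Finset

namespace Pool.Agent.H.MP_ccfaf0_pr

/-- the numbers defining the connection set of a circulant graph -/
def connT (n k : ℕ) (b : Bool) : Finset ℕ :=
  (Finset.Icc 1 k ∪ Finset.Ico (n - k) n) ∪ (if b then {n / 2} else ∅)

theorem card_connT {n k : ℕ} {b : Bool} (h : 2 * k + b.toNat < n) (hb : b = true → Even n) :
    (connT n k b).card = 2 * k + b.toNat := by
  unfold connT
  have h1 : Disjoint (Finset.Icc 1 k) (Finset.Ico (n - k) n) := by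
    rw [Finset.disjoint_left]
    intro x hx hx'
    rw [Finset.mem_Icc] at hx
    rw [Finset.mem_Ico] at hx'
    have := b.toNat_le
    omega
  have h2 : (Finset.Icc 1 k ∪ Finset.Ico (n - k) n).card = 2 * k := by
    rw [card_union_of_disjoint h1, Nat.card_Icc, Nat.card_Ico]
    omega
  cases b with
  | false => simp [h2]
  | true =>
    obtain ⟨m, hm⟩ := hb rfl
    simp only [Bool.toNat_true] at h
    rw [card_union_of_disjoint]
    · rw [h2]; simp
    · simp only [if_true, Finset.disjoint_singleton_right, mem_union, Finset.mem_Icc,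
        Finset.mem_Ico]
      omega

theorem exists_regular_ZMod {n d : ℕ} (hd : d < n) (he : Even (n * d)) :
    ∃ G : SimpleGraph (ZMod n), ∀ v, (G.neighborSet v).ncard = d := by
  have hn : NeZero n := ⟨by omega⟩
  -- d = 2k + b
  obtain ⟨k, b, hkb, hb⟩ : ∃ (k : ℕ) (b : Bool), d = 2 * k + b.toNat ∧ (b = true → Even n) := by
    rcases Nat.even_or_odd d with h | h
    · obtain ⟨k, hk⟩ := h
      exact ⟨k, false, by simp; omega, by simp⟩
    · obtain ⟨k, hk⟩ := h
      refine ⟨k, true, by simp; omega, fun _ => ?_⟩
      rcases Nat.even_mul.1 he with h | h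
      · exact h
      · exact absurd h (by rw [Nat.not_even_iff_odd]; exact ⟨k, hk⟩)
  set T := connT n k b with hT
  have hTc : T.card = d := by rw [hT, card_connT (by omega) hb, hkb]
  have hTpos : ∀ x ∈ T, 0 < x ∧ x < n := by
    intro x hx
    rw [hT, connT] at hx
    have := b.toNat_le
    cases b with
    | false =>
      simp only [mem_union, Finset.mem_Icc, Finset.mem_Ico, Bool.false_eq_true, if_false,
        Finset.notMem_empty, or_false] at hx
      simp only [Bool.toNat_false] at hkb
      omega
    | true =>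
      obtain ⟨m, hm⟩ := hb rfl
      simp only [mem_union, Finset.mem_Icc, Finset.mem_Ico, if_true, mem_singleton] at hx
      simp only [Bool.toNat_true] at hkb
      omega
  have hTneg : ∀ x ∈ T, n - x ∈ T := by
    intro x hx
    have hx' := hTpos x hx
    rw [hT, connT] at hx ⊢
    have := b.toNat_le
    cases b with
    | false =>
      simp only [mem_union, Finset.mem_Icc, Finset.mem_Ico, Bool.false_eq_true, if_false,
        Finset.notMem_empty, or_false] at hx ⊢
      omega
    | true =>
      obtain ⟨m, hm⟩ := hb rfl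
      simp only [mem_union, Finset.mem_Icc, Finset.mem_Ico, if_true, mem_singleton] at hx ⊢
      omega
  set S : Set (ZMod n) := {x | x.val ∈ T} with hS
  have h0 : (0 : ZMod n) ∉ S := by
    intro h
    have : (0 : ZMod n).val ∈ T := h
    rw [ZMod.val_zero] at this
    exact absurd (hTpos 0 this).1 (lt_irrefl _)
  have hneg : ∀ x ∈ S, -x ∈ S := by
    intro x hx
    have hx1 : x.val ∈ T := hx
    have hx0 : x ≠ 0 := fun h => h0 (h ▸ hx)
    change (-x).val ∈ T
    have : NeZero x := ⟨hx0⟩
    rw [ZMod.val_neg_of_ne_zero x]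
    exact hTneg _ hx1
  have hSc : S.ncard = d := by
    have : S = (fun m : ℕ => (m : ZMod n)) '' (T : Set ℕ) := by
      ext x
      simp only [hS, Set.mem_setOf_eq, Set.mem_image, Finset.mem_coe]
      constructor
      · intro h
        exact ⟨x.val, h, ZMod.natCast_zmod_val x⟩
      · rintro ⟨m, hm, rfl⟩
        rw [ZMod.val_natCast, Nat.mod_eq_of_lt (hTpos m hm).2]
        exact hm
    rw [this, Set.ncard_image_of_injOn, Set.ncard_coe_finset, hTc]
    intro a ha b hb hab
    have h1 := congrArg ZMod.val hab
    simp only [ZMod.val_natCast] at h1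
    rwa [Nat.mod_eq_of_lt (hTpos a ha).2, Nat.mod_eq_of_lt (hTpos b hb).2] at h1
  let G : SimpleGraph (ZMod n) :=
    { Adj := fun a b => b - a ∈ S
      symm := ⟨fun a b h => by
        have := hneg _ h
        rwa [neg_sub] at this⟩
      loopless := ⟨fun a h => h0 (by rwa [sub_self] at h)⟩ }
  refine ⟨G, fun v => ?_⟩
  have : G.neighborSet v = (fun x => v + x) '' S := by
    ext w
    simp only [SimpleGraph.mem_neighborSet, Set.mem_image]
    constructor
    · intro h
      exact ⟨w - v, h, by ring⟩
    · rintro ⟨x, hx, rfl⟩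
      change v + x - v ∈ S
      rwa [add_sub_cancel_left]
  rw [this, Set.ncard_image_of_injective _ (add_right_injective v), hSc]

theorem regG_nonempty {n d : ℕ} (hd : d < n) (he : Even (n * d)) : (regG (Fin n) d).Nonempty := by
  have hn : NeZero n := ⟨by omega⟩
  obtain ⟨G, hG⟩ := exists_regular_ZMod hd he
  have hc : Fintype.card (Fin n) = Fintype.card (ZMod n) := by
    rw [Fintype.card_fin, ZMod.card]
  let e : Fin n ≃ ZMod n := Fintype.equivOfCardEq hc
  refine ⟨G.comap e, ?_⟩
  rw [mem_regG]
  intro v
  have : (G.comap e).neighborSet v = e ⁻¹' (G.neighborSet (e v)) := by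
    ext w; simp
  rw [this, ← hG (e v)]
  exact Set.ncard_preimage_of_injective_subset_range e.injective (by simp [e.surjective.range_eq])

end Pool.Agent.H.MP_ccfaf0_pr
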