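import Pool.Agent.H.MP_ccfaf0_pr.Defs

/-!
# Vertices without short lassos have the regular tree as their 3-neighbourhood
-/

namespace Pool.Agent.H.MP_ccfaf0_pr

variable {V : Type*}

/-- A lasso: a path `l` whose last vertex is adjacent to the earlier vertex number `i`. -/
def IsLasso (G : SimpleGraph V) (l : List V) (i : ℕ) : Prop :=
  l.Nodup ∧ List.IsChain G.Adj l ∧ i + 3 ≤ l.length ∧
    ∃ a b, l[l.length - 1]? = some a ∧ l[i]? = some b ∧ G.Adj a b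

/-- A vertex is bad if a lasso with at most seven vertices starts there. -/
def Bad (G : SimpleGraph V) (v : V) : Prop :=
  ∃ (l : List V) (i : ℕ), l.head? = some v ∧ l.length ≤ 7 ∧ IsLasso G l i

section structure_

variable {G : SimpleGraph V} {v : V} (hv : ¬ Bad G v)
include hv

theorem F1 {x x' : V} (h1 : G.Adj v x) (h2 : G.Adj v x') : ¬ G.Adj x x' := by
  intro h
  refine hv ⟨[v, x, x'], 0, rfl, by simp, ?_, ?_, by simp, x', v, by simp, by simp, h2.symm⟩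
  · simp [h1.ne, h2.ne, h.ne]
  · simp [h1, h]

theorem F2 {x x' y : V} (h1 : G.Adj v x) (h2 : G.Adj x y) (h3 : y ≠ v) (h4 : G.Adj v x')
    (h5 : G.Adj x' y) : x = x' := by
  by_contra hne
  refine hv ⟨[v, x, y, x'], 0, rfl, by simp, ?_, ?_, by simp, x', v, by simp, by simp, h4.symm⟩
  · simp [h1.ne, h3.symm, h4.ne, h2.ne, hne, h5.ne']
  · simp [h1, h2, h5.symm]

theorem F2' {x y : V} (h1 : G.Adj v x) (h2 : G.Adj x y) : ¬ G.Adj v y :=
  fun h => F1 hv h1 h h2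

theorem F3 {x x' y y' : V} (h1 : G.Adj v x) (h2 : G.Adj x y) (h3 : y ≠ v) (h4 : G.Adj v x')
    (h5 : G.Adj x' y') (h6 : y' ≠ v) : ¬ G.Adj y y' := by
  intro h
  by_cases hx : x = x'
  · subst hx
    refine hv ⟨[v, x, y, y'], 1, rfl, by simp, ?_, ?_, by simp, y', x, by simp, by simp, h5.symm⟩
    · simp [h1.ne, h3.symm, h6.symm, h2.ne, h5.ne, h.ne]
    · simp [h1, h2, h]
  · have e1 : x ≠ y' := fun e => F2' hv h4 h5 (e ▸ h1)
    have e2 : y ≠ x' := fun e => F2' hv h1 h2 (e ▸ h4)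
    refine hv ⟨[v, x, y, y', x'], 0, rfl, by simp, ?_, ?_, by simp, x', v, by simp, by simp,
      h4.symm⟩
    · simp [h1.ne, h3.symm, h6.symm, h4.ne, h2.ne, e1, hx, h.ne, e2, h5.ne']
    · simp [h1, h2, h, h5.symm]

/-- `z` is a child of `y` which is a child of `x` which is a neighbour of `v`. -/
structure P3 (G : SimpleGraph V) (v x y z : V) : Prop where
  vx : G.Adj v x
  xy : G.Adj x y
  yv : y ≠ v
  yz : G.Adj y z
  zx : z ≠ x

theorem F4v {x y z : V} (h : P3 G v x y z) : z ≠ v := by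
  intro e
  have := h.yz
  rw [e] at this
  exact F2' hv h.vx h.xy this.symm

theorem F4a {x y z : V} (h : P3 G v x y z) : ¬ G.Adj v z := by
  intro e
  exact h.zx (F2 hv h.vx h.xy h.yv e h.yz.symm).symm

theorem F4b {x y z x' : V} (h : P3 G v x y z) (h1 : G.Adj v x') : ¬ G.Adj x' z := by
  intro e
  exact F3 hv h.vx h.xy h.yv h1 e (F4v hv h) h.yz

theorem F4 {x y z x' y' : V} (h : P3 G v x y z) (h' : P3 G v x' y' z) : y = y' := by
  by_contra hne
  have hzv := F4v hv h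
  by_cases hx : x = x'
  · subst hx
    refine hv ⟨[v, x, y, z, y'], 1, rfl, by simp, ?_, ?_, by simp, y', x, by simp, by simp,
      h'.xy.symm⟩
    · simp [h.vx.ne, h.yv.symm, hzv.symm, h'.yv.symm, h.xy.ne, h.zx.symm, h'.xy.ne, h.yz.ne, hne,
        h'.yz.ne']
    · simp [h.vx, h.xy, h.yz, h'.yz.symm]
  · have e1 : x ≠ y' := fun e => F2' hv h'.vx h'.xy (e ▸ h.vx)
    have e2 : y ≠ x' := fun e => F2' hv h.vx h.xy (e ▸ h'.vx)
    refine hv ⟨[v, x, y, z, y', x'], 0, rfl, by simp, ?_, ?_, by simp, x', v, by simp, by simp,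
      h'.vx.symm⟩
    · simp [h.vx.ne, h.yv.symm, hzv.symm, h'.yv.symm, h'.vx.ne, h.xy.ne, h.zx.symm, e1, hx,
        h.yz.ne, hne, e2, h'.yz.ne', h'.zx, h'.xy.ne']
    · simp [h.vx, h.xy, h.yz, h'.yz.symm, h'.xy.symm]

theorem F5 {x y z x' y' z' : V} (h : P3 G v x y z) (h' : P3 G v x' y' z') : ¬ G.Adj z z' := by
  intro hzz
  have hzv := F4v hv h
  have hzv' := F4v hv h'
  by_cases hy : y = y'
  · subst hy
    have hx : x = x' := F2 hv h.vx h.xy h.yv h'.vx h'.xy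
    subst hx
    refine hv ⟨[v, x, y, z, z'], 2, rfl, by simp, ?_, ?_, by simp, z', y, by simp, by simp,
      h'.yz.symm⟩
    · simp [h.vx.ne, h.yv.symm, hzv.symm, hzv'.symm, h.xy.ne, h.zx.symm, h'.zx.symm, h.yz.ne,
        h'.yz.ne, hzz.ne]
    · simp [h.vx, h.xy, h.yz, hzz]
  have e3 : y ≠ z' := fun e => F4b hv h' h.vx (e ▸ h.xy)
  have e4 : z ≠ y' := fun e => F4b hv h h'.vx (e ▸ h'.xy)
  by_cases hx : x = x'
  · subst hx
    refine hv ⟨[v, x, y, z, z', y'], 1, rfl, by simp, ?_, ?_, by simp, y', x, by simp, by simp,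
      h'.xy.symm⟩
    · simp [h.vx.ne, h.yv.symm, hzv.symm, hzv'.symm, h'.yv.symm, h.xy.ne, h.zx.symm, h'.zx.symm,
        h'.xy.ne, h.yz.ne, e3, hy, hzz.ne, e4, h'.yz.ne']
    · simp [h.vx, h.xy, h.yz, hzz, h'.yz.symm]
  · have e1 : x ≠ y' := fun e => F2' hv h'.vx h'.xy (e ▸ h.vx)
    have e2 : y ≠ x' := fun e => F2' hv h.vx h.xy (e ▸ h'.vx)
    have e5 : x ≠ z' := fun e => F4a hv h' (e ▸ h.vx)
    have e6 : z ≠ x' := fun e => F4a hv h (e ▸ h'.vx)
    refine hv ⟨[v, x, y, z, z', y', x'], 0, rfl, by simp, ?_, ?_, by simp, x', v, by simp, by simp,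
      h'.vx.symm⟩
    · simp [h.vx.ne, h.yv.symm, hzv.symm, hzv'.symm, h'.yv.symm, h'.vx.ne, h.xy.ne, h.zx.symm, e5,
        e1, hx, h.yz.ne, e3, hy, e2, hzz.ne, e4, e6, h'.yz.ne', h'.zx, h'.xy.ne']
    · simp [h.vx, h.xy, h.yz, hzz, h'.yz.symm, h'.xy.symm]

end structure_

end Pool.Agent.H.MP_ccfaf0_pr
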