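import Pool.Agent.H.MP_ccfaf0_pr.Count
import Pool.Agent.H.MP_ccfaf0_pr.Tree

/-!
# The expected number of bad vertices
-/

open Finset

namespace Pool.Agent.H.MP_ccfaf0_pr

open scoped Classical

/-- next index in a lasso -/
def nx (t i : ℕ) (h : i + 3 ≤ t) (j : Fin t) : Fin t :=
  if hj : j.1 + 1 < t then ⟨j.1 + 1, hj⟩ else ⟨i, by omega⟩

theorem nx_ne {t i : ℕ} (h : i + 3 ≤ t) (j : Fin t) : nx t i h j ≠ j := by
  unfold nx
  split_ifs with hj
  · intro e; have := congrArg Fin.val e; simp at this
  · intro e; have := congrArg Fin.val e; simp at this; have := j.2; omega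

theorem nx_pair {t i : ℕ} (h : i + 3 ≤ t) (j k : Fin t)
    (e : s(j, nx t i h j) = s(k, nx t i h k)) : j = k := by
  rw [Sym2.eq_iff] at e
  rcases e with e | ⟨e1, e2⟩
  · exact e.1
  · exfalso
    unfold nx at e1 e2
    have h1 := congrArg Fin.val e1
    have h2 := congrArg Fin.val e2
    have hj := j.2
    have hk := k.2
    split_ifs at h1 h2 with c1 c2 c2 <;> simp at h1 h2 <;> omega

variable {V : Type*}

/-- The edges of a lasso. -/
noncomputable def lassoEdges {t i : ℕ} (h : i + 3 ≤ t) (x : Fin t → V) : Finset (Sym2 V) :=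
  Finset.univ.image fun j => s(x j, x (nx t i h j))

theorem card_lassoEdges {t i : ℕ} (h : i + 3 ≤ t) (x : Fin t → V) (hx : Function.Injective x) :
    (lassoEdges h x).card = t := by
  rw [lassoEdges, card_image_of_injective, card_univ, Fintype.card_fin]
  intro j k hjk
  apply nx_pair h
  have : Sym2.map x s(j, nx t i h j) = Sym2.map x s(k, nx t i h k) := hjk
  exact Sym2.map.injective hx this

theorem exists_lasso {G : SimpleGraph V} {v : V} (hb : Bad G v) :
    ∃ (t i : ℕ) (_ : t ≤ 7) (h : i + 3 ≤ t) (x : Fin t → V), Function.Injective x ∧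
      x ⟨0, by omega⟩ = v ∧ ∀ j, G.Adj (x j) (x (nx t i h j)) := by
  obtain ⟨l, i, h0, h7, hnd, hch, hi, a, b, ha, hb, hab⟩ := hb
  refine ⟨l.length, i, h7, hi, l.get, List.nodup_iff_injective_get.1 hnd, ?_, ?_⟩
  · cases l with
    | nil => simp at h0
    | cons c l => simpa using h0
  · intro j
    unfold nx
    split_ifs with hj
    · have := List.isChain_iff_getElem.1 hch j.1 hj
      simpa using this
    · have hj' : j.1 = l.length - 1 := by have := j.2; omega
      have e1 : l.get j = a := by
        rw [List.get_eq_getElem]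
        rw [List.getElem?_eq_some_iff] at ha
        obtain ⟨h1, h2⟩ := ha
        rw [← h2]
        congr 1
      have e2 : l.get ⟨i, by omega⟩ = b := by
        rw [List.get_eq_getElem]
        rw [List.getElem?_eq_some_iff] at hb
        obtain ⟨h1, h2⟩ := hb
        exact h2
      rw [e1, e2]
      exact hab

variable [Fintype V]

/-- The number of bad vertices. -/
noncomputable def badCount (G : SimpleGraph V) : ℕ := (univ.filter fun v => Bad G v).card

/-- lassos of a given shape in a graph -/
noncomputable def lassos (G : SimpleGraph V) {t i : ℕ} (h : i + 3 ≤ t) : Finset (Fin t → V) :=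
  univ.filter fun x => Function.Injective x ∧ ∀ j, G.Adj (x j) (x (nx t i h j))

theorem sum_lassos {d : ℕ} (hd : 0 < d) (h16 : 16 * d ≤ Fintype.card V) {t i : ℕ}
    (h : i + 3 ≤ t) (ht : t ≤ 7) (hn : 56 ≤ Fintype.card V * d) :
    ∑ G ∈ regG V d, (lassos G h).card ≤ (2 * d) ^ t * (regG V d).card := by
  have hnpos : 0 < Fintype.card V := by
    rcases Nat.eq_zero_or_pos (Fintype.card V) with h0 | h0
    · rw [h0] at hn; omega
    · exact h0
  have h1 : ∑ G ∈ regG V d, (lassos G h).card
      ≤ ∑ x ∈ (univ.filter fun x : Fin t → V => Function.Injective x), cnt V d (lassoEdges h x) := by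
    have e1 : ∀ G ∈ regG V d, (lassos G h).card
        = ∑ x ∈ (univ.filter fun x : Fin t → V => Function.Injective x),
            if ∀ j, G.Adj (x j) (x (nx t i h j)) then 1 else 0 := by
      intro G _
      rw [lassos, ← Finset.filter_filter, Finset.card_filter]
    rw [Finset.sum_congr rfl e1, Finset.sum_comm]
    refine Finset.sum_le_sum fun x _ => ?_
    rw [← Finset.card_filter, cnt]
    refine card_le_card ?_
    intro G hG
    rw [mem_filter] at hG ⊢
    refine ⟨hG.1, fun e he => ?_⟩
    rw [lassoEdges, mem_image] at he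
    obtain ⟨j, -, rfl⟩ := he
    exact hG.2 j
  have h2 : (∑ x ∈ (univ.filter fun x : Fin t → V => Function.Injective x),
      cnt V d (lassoEdges h x)) * Fintype.card V ^ t
      ≤ (Fintype.card V ^ t) * ((2 * d) ^ t * (regG V d).card) := by
    rw [Finset.sum_mul]
    calc _ ≤ ∑ _x ∈ (univ.filter fun x : Fin t → V => Function.Injective x),
          (2 * d) ^ t * (regG V d).card := by
          refine Finset.sum_le_sum fun x hx => ?_
          rw [mem_filter] at hx
          have hc := card_lassoEdges h x hx.2
          have := cnt_le hd h16 (lassoEdges h x) (by rw [hc]; omega)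
          rwa [hc] at this
      _ = (univ.filter fun x : Fin t → V => Function.Injective x).card *
            ((2 * d) ^ t * (regG V d).card) := by rw [Finset.sum_const, smul_eq_mul]
      _ ≤ _ := by
          refine Nat.mul_le_mul_right _ ((card_filter_le _ _).trans ?_)
          rw [card_univ, Fintype.card_fun, Fintype.card_fin]
  have h3 : (∑ x ∈ (univ.filter fun x : Fin t → V => Function.Injective x),
      cnt V d (lassoEdges h x)) * Fintype.card V ^ t
      ≤ ((2 * d) ^ t * (regG V d).card) * Fintype.card V ^ t := by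
    rw [mul_comm _ (Fintype.card V ^ t)] at h2 ⊢
    rw [mul_comm ((2 * d) ^ t * (regG V d).card)]
    exact h2
  exact h1.trans (Nat.le_of_mul_le_mul_right h3 (by positivity))

theorem badCount_le (G : SimpleGraph V) :
    badCount G ≤ ∑ t ∈ Finset.range 8, ∑ i ∈ Finset.range 8,
      if h : i + 3 ≤ t then (lassos G h).card else 0 := by
  rw [badCount]
  have hsub : (univ.filter fun v => Bad G v) ⊆
      (Finset.range 8).biUnion fun t => (Finset.range 8).biUnion fun i =>
        if h : i + 3 ≤ t then (lassos G h).image (fun x => x ⟨0, by omega⟩) else ∅ := by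
    intro v hv
    rw [mem_filter] at hv
    obtain ⟨t, i, ht, h, x, hx, hx0, hxa⟩ := exists_lasso hv.2
    rw [mem_biUnion]
    refine ⟨t, mem_range.2 (by omega), ?_⟩
    rw [mem_biUnion]
    refine ⟨i, mem_range.2 (by omega), ?_⟩
    rw [dif_pos h, mem_image]
    exact ⟨x, mem_filter.2 ⟨mem_univ _, hx, hxa⟩, hx0⟩
  refine (card_le_card hsub).trans (card_biUnion_le.trans ?_)
  refine Finset.sum_le_sum fun t _ => card_biUnion_le.trans ?_
  refine Finset.sum_le_sum fun i _ => ?_
  split_ifs with h
  · exact card_image_le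
  · simp

/-- The average number of bad vertices in a random `d`-regular graph is at most `64 (2d)^7`. -/
theorem sum_badCount {d : ℕ} (hd : 0 < d) (h16 : 16 * d ≤ Fintype.card V)
    (hn : 56 ≤ Fintype.card V * d) :
    ∑ G ∈ regG V d, badCount G ≤ 64 * (2 * d) ^ 7 * (regG V d).card := by
  calc ∑ G ∈ regG V d, badCount G
      ≤ ∑ G ∈ regG V d, ∑ t ∈ Finset.range 8, ∑ i ∈ Finset.range 8,
        (if h : i + 3 ≤ t then (lassos G h).card else 0) :=
        Finset.sum_le_sum fun G _ => badCount_le G
    _ = ∑ t ∈ Finset.range 8, ∑ i ∈ Finset.range 8, ∑ G ∈ regG V d,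
        (if h : i + 3 ≤ t then (lassos G h).card else 0) := by
        rw [Finset.sum_comm]
        refine Finset.sum_congr rfl fun t _ => ?_
        rw [Finset.sum_comm]
    _ ≤ ∑ _t ∈ Finset.range 8, ∑ _i ∈ Finset.range 8, (2 * d) ^ 7 * (regG V d).card := by
        refine Finset.sum_le_sum fun t ht => Finset.sum_le_sum fun i _ => ?_
        rw [mem_range] at ht
        by_cases h : i + 3 ≤ t
        · simp only [dif_pos h]
          refine (sum_lassos hd h16 h (by omega) hn).trans ?_
          exact Nat.mul_le_mul_right _ (Nat.pow_le_pow_right (by omega) (by omega))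
        · simp only [dif_neg h, Finset.sum_const_zero]
          exact Nat.zero_le _
    _ = 64 * (2 * d) ^ 7 * (regG V d).card := by
        simp only [Finset.sum_const, Finset.card_range, smul_eq_mul]
        ring

end Pool.Agent.H.MP_ccfaf0_pr
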