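import Pool.Agent.H.MP_ccfaf0_pr.Code
import Pool.Agent.H.MP_ccfaf0_pr.Exist

/-!
# Non-reconstructability of sparse random regular graphs from their 3-neighbourhoods
-/

open Finset Filter Topology

namespace Pool.Agent.H.MP_ccfaf0_pr

open scoped Classical

theorem count_many_bad {n d : ℕ} (hd : 0 < d) (h16 : 16 * d ≤ n) (hn : 56 ≤ n * d) :
    ((regG (Fin n) d).filter fun G => ¬ badCount G ≤ d ^ 8).card * d
      ≤ 8192 * (regG (Fin n) d).card := by
  set B := (regG (Fin n) d).filter fun G => ¬ badCount G ≤ d ^ 8 with hB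
  have h1 := sum_badCount (V := Fin n) hd (by simpa using h16) (by simpa using hn)
  have h2 : B.card * d ^ 8 ≤ ∑ G ∈ regG (Fin n) d, badCount G := by
    calc B.card * d ^ 8 = ∑ _G ∈ B, d ^ 8 := by rw [Finset.sum_const, smul_eq_mul]
      _ ≤ ∑ G ∈ B, badCount G := by
          refine Finset.sum_le_sum fun G hG => ?_
          rw [hB, mem_filter] at hG
          exact (not_le.1 hG.2).le
      _ ≤ ∑ G ∈ regG (Fin n) d, badCount G :=
          Finset.sum_le_sum_of_subset (Finset.filter_subset _ _)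
  have h3 : (B.card * d) * d ^ 7 ≤ (8192 * (regG (Fin n) d).card) * d ^ 7 := by
    calc (B.card * d) * d ^ 7 = B.card * d ^ 8 := by ring
      _ ≤ 64 * (2 * d) ^ 7 * (regG (Fin n) d).card := h2.trans h1
      _ = _ := by ring
  exact Nat.le_of_mul_le_mul_right h3 (by positivity)

theorem count_few_bad {n d : ℕ} (h64 : 64 ≤ d) (hdn : d ^ 14 ≤ n)
    (hne : (regG (Fin n) d).Nonempty) :
    ((regG (Fin n) d).filter fun G => Reconstructable 3 G ∧ badCount G ≤ d ^ 8).card * n
      ≤ (regG (Fin n) d).card := by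
  have hd0 : 0 < d := by omega
  have hpow : ∀ k l : ℕ, k ≤ l → d ^ k ≤ d ^ l := fun k l h => Nat.pow_le_pow_right hd0 h
  have h2n : d ^ 2 ≤ n := (hpow 2 14 (by norm_num)).trans hdn
  have h3n : d ^ 3 ≤ n := (hpow 3 14 (by norm_num)).trans hdn
  have h8n : d ^ 8 ≤ n := (hpow 8 14 (by norm_num)).trans hdn
  have hn32 : 32 ≤ n := by nlinarith
  have h16 : 16 * d ≤ n := by nlinarith
  have hK : 1 + d + d * d + d * (d * d) ≤ 2 * d ^ 3 := by nlinarith
  have h1 := card_reconstructable_le (n := n) (d := d) (m := d ^ 8) (K := 2 * d ^ 3) h8n hK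
  have h4 : (n : ℕ) ^ (4 * n) ≤ (regG (Fin n) d).card := by
    have h5 := card_regG_ge (V := Fin n) hd0 (by simpa using h16) hne (8 * n)
      (by rw [Fintype.card_fin]; nlinarith)
    rw [Fintype.card_fin] at h5
    have h6 : (2 * d) ^ (8 * n) ≤ n ^ (4 * n) := by
      calc (2 * d) ^ (8 * n) = ((2 * d) ^ 2) ^ (4 * n) := by rw [← pow_mul]; ring_nf
        _ ≤ n ^ (4 * n) := Nat.pow_le_pow_left (by nlinarith) _
    have h7 : n ^ (4 * n) * n ^ (4 * n) ≤ n ^ (4 * n) * (regG (Fin n) d).card := by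
      calc n ^ (4 * n) * n ^ (4 * n) = n ^ (8 * n) := by rw [← pow_add]; ring_nf
        _ ≤ (2 * d) ^ (8 * n) * (regG (Fin n) d).card := h5
        _ ≤ _ := Nat.mul_le_mul_right _ h6
    exact Nat.le_of_mul_le_mul_left h7 (by positivity)
  have h5 : (2 ^ ((2 * d ^ 3) * (2 * d ^ 3) + 2 * (2 * d ^ 3))) ^ (d ^ 8) ≤ 2 ^ (5 * n) := by
    rw [← pow_mul]
    refine Nat.pow_le_pow_right (by norm_num) ?_
    have h6 : (2 * d ^ 3) * (2 * d ^ 3) + 2 * (2 * d ^ 3) ≤ 5 * d ^ 6 := by
      have : 4 * d ^ 3 ≤ d ^ 3 * d ^ 3 := by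
        refine Nat.mul_le_mul_right _ ?_
        calc 4 ≤ d := by omega
          _ = d ^ 1 := (pow_one d).symm
          _ ≤ d ^ 3 := hpow 1 3 (by norm_num)
      calc (2 * d ^ 3) * (2 * d ^ 3) + 2 * (2 * d ^ 3) = 4 * (d ^ 3 * d ^ 3) + 4 * d ^ 3 := by ring
        _ ≤ 4 * (d ^ 3 * d ^ 3) + d ^ 3 * d ^ 3 := by omega
        _ = 5 * d ^ 6 := by ring
    calc ((2 * d ^ 3) * (2 * d ^ 3) + 2 * (2 * d ^ 3)) * d ^ 8 ≤ (5 * d ^ 6) * d ^ 8 :=
          Nat.mul_le_mul_right _ h6
      _ = 5 * d ^ 14 := by ring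
      _ ≤ 5 * n := by omega
  calc _ ≤ (n.factorial * (2 ^ ((2 * d ^ 3) * (2 * d ^ 3) + 2 * (2 * d ^ 3))) ^ (d ^ 8)) * n :=
        Nat.mul_le_mul_right _ h1
    _ ≤ (n ^ n * 2 ^ (5 * n)) * n :=
        Nat.mul_le_mul_right _ (Nat.mul_le_mul (Nat.factorial_le_pow n) h5)
    _ ≤ (n ^ n * n ^ n) * n ^ n := by
        refine Nat.mul_le_mul (Nat.mul_le_mul_left _ ?_) ?_
        · rw [pow_mul]
          exact Nat.pow_le_pow_left (by omega) _
        · calc n = n ^ 1 := (pow_one n).symm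
            _ ≤ n ^ n := Nat.pow_le_pow_right (by omega) (by omega)
    _ = n ^ (3 * n) := by rw [← pow_add, ← pow_add]; ring_nf
    _ ≤ n ^ (4 * n) := Nat.pow_le_pow_right (by omega) (by omega)
    _ ≤ _ := h4

theorem regularGraphs_eq (n d : ℕ) : regularGraphs n d = (regG (Fin n) d : Set _) := by
  ext G
  rw [Finset.mem_coe, mem_regG]
  rfl

theorem notRecon_eq (n d : ℕ) : {G ∈ regularGraphs n d | ¬ Reconstructable 3 G}
    = (((regG (Fin n) d).filter fun G => ¬ Reconstructable 3 G : Finset _) : Set _) := by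
  rw [regularGraphs_eq]
  ext G
  simp

/-- The finite bound. -/
theorem prob_ge {n d : ℕ} (h64 : 64 ≤ d) (hdn : d ^ 14 ≤ n) (he : Even (n * d)) :
    1 - 8192 / (d : ℝ) - 1 / (n : ℝ) ≤ probNotReconstructable 3 n d := by
  have hd0 : 0 < d := by omega
  have h2n : d ^ 2 ≤ n := (Nat.pow_le_pow_right hd0 (by norm_num)).trans hdn
  have h16 : 16 * d ≤ n := by nlinarith
  have hdn' : d < n := by omega
  have hne := regG_nonempty hdn' he
  have hn56 : 56 ≤ n * d := by nlinarith
  set N := (regG (Fin n) d).card with hN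
  have hNpos : 0 < N := Finset.card_pos.2 hne
  have h1 := count_many_bad hd0 h16 hn56
  have h2 := count_few_bad h64 hdn hne
  set R := ((regG (Fin n) d).filter fun G => Reconstructable 3 G) with hR
  set R1 := ((regG (Fin n) d).filter fun G => Reconstructable 3 G ∧ badCount G ≤ d ^ 8) with hR1
  set R2 := ((regG (Fin n) d).filter fun G => ¬ badCount G ≤ d ^ 8) with hR2
  set Q := ((regG (Fin n) d).filter fun G => ¬ Reconstructable 3 G) with hQ
  have hcover : R.card ≤ R1.card + R2.card := by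
    refine (card_le_card ?_).trans (card_union_le _ _)
    intro G hG
    rw [hR, mem_filter] at hG
    rw [mem_union, hR1, hR2, mem_filter, mem_filter]
    by_cases h : badCount G ≤ d ^ 8
    · left; exact ⟨hG.1, hG.2, h⟩
    · right; exact ⟨hG.1, h⟩
  have hsplit : R.card + Q.card = N := by
    rw [hR, hQ, hN]
    exact Finset.card_filter_add_card_filter_not _
  have hprob : probNotReconstructable 3 n d = (Q.card : ℝ) / N := by
    rw [probNotReconstructable, notRecon_eq, regularGraphs_eq, Set.ncard_coe_finset,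
      Set.ncard_coe_finset]
  rw [hprob]
  have hNr : (0 : ℝ) < N := by exact_mod_cast hNpos
  have hdr : (0 : ℝ) < d := by exact_mod_cast hd0
  have hnr : (0 : ℝ) < n := by exact_mod_cast (by omega : 0 < n)
  have e1 : (R1.card : ℝ) / N ≤ 1 / n := by
    rw [div_le_div_iff₀ hNr hnr, one_mul]
    exact_mod_cast h2
  have e2 : (R2.card : ℝ) / N ≤ 8192 / d := by
    rw [div_le_div_iff₀ hNr hdr]
    exact_mod_cast h1
  have e3 : (Q.card : ℝ) / N = 1 - (R.card : ℝ) / N := by
    have : (R.card : ℝ) + Q.card = N := by exact_mod_cast hsplit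
    field_simp
    linarith
  have e4 : (R.card : ℝ) / N ≤ (R1.card : ℝ) / N + (R2.card : ℝ) / N := by
    rw [← add_div]
    exact div_le_div_of_nonneg_right (by exact_mod_cast hcover) hNr.le
  rw [e3]
  linarith

theorem prob_le_one (n d : ℕ) : probNotReconstructable 3 n d ≤ 1 := by
  rw [probNotReconstructable]
  refine div_le_one_of_le₀ ?_ (by positivity)
  have : {G ∈ regularGraphs n d | ¬ Reconstructable 3 G}.ncard ≤ (regularGraphs n d).ncard :=
    Set.ncard_le_ncard (fun G hG => hG.1) (Set.toFinite _)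
  exact_mod_cast this

/-- The limit theorem. -/
theorem main (ε : ℝ) (hε : 0 < ε) (d : ℕ → ℕ) (heven : ∀ n, Even (n * d n))
    (hd : ∀ᶠ n : ℕ in atTop, (n : ℝ) ^ ε ≤ d n ∧ (d n : ℝ) ≤ (n : ℝ) ^ ((1 / 14 : ℝ) - ε)) :
    Tendsto (fun n => probNotReconstructable 3 n (d n)) atTop (𝓝 1) := by
  have hdtop : Tendsto (fun n => (d n : ℝ)) atTop atTop := by
    refine tendsto_atTop_mono' atTop (hd.mono fun n h => h.1) ?_
    exact (tendsto_rpow_atTop hε).comp tendsto_natCast_atTop_atTop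
  have hlow : Tendsto (fun n => 1 - 8192 / (d n : ℝ) - 1 / (n : ℝ)) atTop (𝓝 1) := by
    have h1 : Tendsto (fun n => 8192 / (d n : ℝ)) atTop (𝓝 0) := hdtop.const_div_atTop 8192
    have h2 : Tendsto (fun n : ℕ => 1 / (n : ℝ)) atTop (𝓝 0) := tendsto_one_div_atTop_nhds_zero_nat
    have := (tendsto_const_nhds (x := (1 : ℝ))).sub h1 |>.sub h2
    simpa using this
  refine tendsto_of_tendsto_of_tendsto_of_le_of_le' hlow tendsto_const_nhds ?_ ?_
  · have h64 : ∀ᶠ n in atTop, (64 : ℝ) ≤ d n := hdtop.eventually_ge_atTop 64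
    filter_upwards [hd, h64, eventually_ge_atTop 1] with n h1 h2 h3
    refine prob_ge (by exact_mod_cast h2) ?_ (heven n)
    have hn1 : (1 : ℝ) ≤ n := by exact_mod_cast h3
    have h4 : ((d n : ℝ)) ^ 14 ≤ (n : ℝ) := by
      calc ((d n : ℝ)) ^ 14 ≤ ((n : ℝ) ^ ((1 / 14 : ℝ) - ε)) ^ 14 :=
            pow_le_pow_left₀ (by positivity) h1.2 14
        _ = (n : ℝ) ^ (((1 / 14 : ℝ) - ε) * 14) := by
            rw [← Real.rpow_natCast, ← Real.rpow_mul (by positivity)]
            norm_num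
        _ ≤ (n : ℝ) ^ (1 : ℝ) := Real.rpow_le_rpow_of_exponent_le hn1 (by linarith)
        _ = n := Real.rpow_one _
    exact_mod_cast h4
  · exact Eventually.of_forall fun n => prob_le_one n (d n)

end Pool.Agent.H.MP_ccfaf0_pr
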