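import Mathlib

/-!
# Switchings in regular graphs

The number of `d`-regular graphs on a finite vertex set containing a given set `F` of edges
is at most `(2d/n)^|F|` times the number of all `d`-regular graphs.
-/

open Finset

namespace Pool.Agent.H.MP_ccfaf0_pr

open scoped Classical in
/-- All `d`-regular graphs on `V`, as a finset. -/
noncomputable def regG (V : Type*) [Fintype V] (d : ℕ) : Finset (SimpleGraph V) :=
  Finset.univ.filter fun G => ∀ v, (G.neighborSet v).ncard = d

variable {V : Type*}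

/-- The switched graph: remove `uv`, `xy`, add `ux`, `vy`. -/
def sw (G : SimpleGraph V) (u v x y : V) : SimpleGraph V :=
  G.deleteEdges {s(u, v), s(x, y)} ⊔ SimpleGraph.fromEdgeSet {s(u, x), s(v, y)}

theorem sw_adj (G : SimpleGraph V) (u v x y a b : V) :
    (sw G u v x y).Adj a b ↔
      (G.Adj a b ∧ s(a, b) ≠ s(u, v) ∧ s(a, b) ≠ s(x, y)) ∨
      ((s(a, b) = s(u, x) ∨ s(a, b) = s(v, y)) ∧ a ≠ b) := by
  simp [sw, SimpleGraph.deleteEdges_adj]

/-- Validity of a switching. -/
structure Valid (G : SimpleGraph V) (u v x y : V) : Prop where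
  uv : G.Adj u v
  xy : G.Adj x y
  xu : x ≠ u
  yv : y ≠ v
  nux : ¬ G.Adj u x
  nvy : ¬ G.Adj v y

theorem Valid.xv {G : SimpleGraph V} {u v x y : V} (h : Valid G u v x y) : x ≠ v := by
  rintro rfl; exact h.nux h.uv

theorem Valid.yu {G : SimpleGraph V} {u v x y : V} (h : Valid G u v x y) : y ≠ u := by
  rintro rfl; exact h.nvy h.uv.symm

theorem sw_sw {G : SimpleGraph V} {u v x y : V} (h : Valid G u v x y) :
    sw (sw G u v x y) u x v y = G := by
  have h1 := h.uv.ne
  have h2 := h.xy.ne
  have h3 := h.xu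
  have h4 := h.yv
  have h5 := h.xv
  have h6 := h.yu
  ext a b
  rw [sw_adj, sw_adj]
  constructor
  · rintro (⟨(⟨h, -⟩ | ⟨h, -⟩), h7, h8⟩ | ⟨h7, h8⟩)
    · exact h
    · rcases h with h | h
      · exact absurd h h7
      · exact absurd h h8
    · rcases h7 with h7 | h7
      · rw [← SimpleGraph.mem_edgeSet, h7]; exact h.uv
      · rw [← SimpleGraph.mem_edgeSet, h7]; exact h.xy
  · intro hab
    by_cases c1 : s(a, b) = s(u, v)
    · right; exact ⟨Or.inl c1, hab.ne⟩
    by_cases c2 : s(a, b) = s(x, y)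
    · right; exact ⟨Or.inr c2, hab.ne⟩
    left
    refine ⟨Or.inl ⟨hab, c1, c2⟩, ?_, ?_⟩
    · intro c
      rw [← SimpleGraph.mem_edgeSet, c] at hab
      exact h.nux hab
    · intro c
      rw [← SimpleGraph.mem_edgeSet, c] at hab
      exact h.nvy hab

theorem ncard_swap {s : Set V} (hs : s.Finite) {a b : V} (ha : a ∈ s) (hb : b ∉ s) :
    (insert b (s \ {a})).ncard = s.ncard := by
  rw [Set.ncard_insert_of_notMem (fun h => hb h.1) (hs.subset Set.sdiff_subset),
    Set.ncard_sdiff_singleton_of_mem ha]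
  have : 0 < s.ncard := (Set.ncard_pos hs).2 ⟨a, ha⟩
  omega

theorem sw_comm1 (G : SimpleGraph V) (u v x y : V) : sw G u v x y = sw G v u y x := by
  ext a b
  rw [sw_adj, sw_adj, Sym2.eq_swap (a := v) (b := u), Sym2.eq_swap (a := y) (b := x)]
  tauto

theorem sw_comm2 (G : SimpleGraph V) (u v x y : V) : sw G u v x y = sw G x y u v := by
  ext a b
  rw [sw_adj, sw_adj, Sym2.eq_swap (a := x) (b := u), Sym2.eq_swap (a := y) (b := v)]
  tauto

theorem Valid.comm1 {G : SimpleGraph V} {u v x y : V} (h : Valid G u v x y) : Valid G v u y x :=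
  ⟨h.uv.symm, h.xy.symm, h.yv, h.xu, h.nvy, h.nux⟩

theorem Valid.comm2 {G : SimpleGraph V} {u v x y : V} (h : Valid G u v x y) : Valid G x y u v :=
  ⟨h.xy, h.uv, h.xu.symm, h.yv.symm, fun hh => h.nux hh.symm, fun hh => h.nvy hh.symm⟩

theorem sw_regular_aux [Finite V] {G : SimpleGraph V} {u v x y : V} (h : Valid G u v x y) :
    ((sw G u v x y).neighborSet u).ncard = (G.neighborSet u).ncard := by
  have h1 := h.uv.ne
  have h2 := h.xy.ne
  have h3 := h.xu
  have h4 := h.yv
  have h5 := h.xv
  have h6 := h.yu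
  have : (sw G u v x y).neighborSet u = insert x (G.neighborSet u \ {v}) := by
    ext b
    simp only [SimpleGraph.mem_neighborSet, sw_adj, Set.mem_insert_iff, Set.mem_sdiff,
      Set.mem_singleton_iff, Sym2.eq_iff, ne_eq]
    constructor
    · rintro (⟨h7, h8, h9⟩ | ⟨(h7 | h7), h8⟩)
      · right; exact ⟨h7, fun h => h8 (Or.inl ⟨trivial, h⟩)⟩
      · left; tauto
      · exfalso
        rcases h7 with h7 | h7
        · exact h1 h7.1
        · exact h6 h7.1.symm
    · rintro (h7 | ⟨h7, h8⟩)
      · right; exact ⟨Or.inl (Or.inl ⟨trivial, h7⟩), fun h => h3 (h7 ▸ h.symm)⟩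
      · left
        refine ⟨h7, ?_, ?_⟩
        · rintro (h | h)
          · exact h8 h.2
          · exact h1 h.1
        · rintro (h | h)
          · exact h3 h.1.symm
          · exact h6 h.1.symm
  rw [this]
  exact ncard_swap (Set.toFinite _) h.uv h.nux

theorem sw_regular [Finite V] {G : SimpleGraph V} {u v x y : V} (h : Valid G u v x y) (w : V) :
    ((sw G u v x y).neighborSet w).ncard = (G.neighborSet w).ncard := by
  by_cases c1 : w = u
  · subst c1; exact sw_regular_aux h
  by_cases c2 : w = v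
  · subst c2; rw [sw_comm1]; exact sw_regular_aux h.comm1
  by_cases c3 : w = x
  · subst c3; rw [sw_comm2]; exact sw_regular_aux h.comm2
  by_cases c4 : w = y
  · subst c4; rw [sw_comm1, sw_comm2]; exact sw_regular_aux h.comm1.comm2
  · have : (sw G u v x y).neighborSet w = G.neighborSet w := by
      ext b
      simp only [SimpleGraph.mem_neighborSet, sw_adj, Sym2.eq_iff, ne_eq]
      constructor
      · rintro (⟨h7, h8, h9⟩ | ⟨(h7 | h7), h8⟩)
        · exact h7
        · tauto
        · tauto
      · intro h7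
        left
        exact ⟨h7, by tauto, by tauto⟩
    rw [this]

end Pool.Agent.H.MP_ccfaf0_pr
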